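import Pool.Agent.Lead.Cp2

namespace Pool.Agent.Results.MP_158c61_gt.Counterexample

open Pool.Agent.Lead.CpD

theorem result : ∃ (X : Type) (_ : TopologicalSpace X), CompactSpace X ∧ T2Space X ∧
    IsDyadic X ∧ Subparacompact (Cp X) ∧ (∀ Z : Set (Cp X), Subparacompact Z) ∧
    ¬ TopologicalSpace.MetrizableSpace X :=
  ⟨X, inferInstance, inferInstance, inferInstance,
    ⟨T, id, continuous_id, Function.surjective_id⟩, net.subpara,
    fun Z => (net.sub Z).subpara, not_metr⟩

end Pool.Agent.Results.MP_158c61_gt.Counterexample
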